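import Mathlib
import Pool.Agent.TH841.NF.FamN
import Pool.Agent.TH344.GT.Tail
import Pool.Agent.Q17.IG.Cdr

/-!
# Ranks of the curves with a cyclic isogeny of degree 4, by conductor

All elliptic curves `E` over `ℚ` with a rational cyclic subgroup of order 4 are ordered by the
conductor, without any bound on the height or on the discriminant, and considered over `ℚ` and over
all the multiquadratic number fields `K = ℚ(√d_1, ..., √d_s)`. There is one set `X` of curves of
density zero such that for all `s`, `k`, `A` the average over the curves outside of `X` of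
`2 ^ (k (rank E(K) + corank of the 2-primary part of Ш(E / K)))` is bounded, uniformly in the fields:
the bound depends only on the number of the primes dividing `d_1 ... d_s`, if `|d_1 ... d_s|` is at
most the `A`-th power of the bound for the conductor. For every `K` the upper density of the curves
with `rank E(K) + corank Ш(E / K)[2^∞] ≥ r` decays faster than any exponential `B ^ (-r)`.

The Tate-Shafarevich group over a number field is that of `Pool.Agent.TH841.NF.ShaN`: continuous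
cocycles of the absolute Galois group with values in the points over the algebraic closure, locally
trivial at all the completions of `K`, modulo the coboundaries. The condition `Cyclic4 A B` is defined
in `Pool.Agent.Q17.IG.Cyc`: there is a point `P` of order 4 of `y² = x³ + A x + B` over the algebraic
closure of `ℚ` such that `σ P = P` or `σ P = -P` for all automorphisms `σ`.
-/

set_option autoImplicit false

namespace Pool.Agent.Results.MP_6073f3_nt.CyclicFourByConductor

open Finset Filter Topology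

open Pool.Agent.TH841.NF.D (HasDiv crk rk)

open Pool.Agent.Q17.IG (Cyclic4)

/-- the curve `y² = x³ + A x + B` over a field `K`, `c = (A, B)` -/
def E (K : Type) [Field K] (c : ℤ × ℤ) : WeierstrassCurve K := ⟨0, 0, 0, (c.1 : K), (c.2 : K)⟩

/-- The prime-to-6 part of the conductor of `y² = x³ + A x + B` (there is no prime `p` with `p⁴ ∣ A`
and `p⁶ ∣ B`): the product over the primes `p ≥ 5` dividing `4 A³ + 27 B²` of `p` (multiplicative
reduction: `p ∤ A`) or `p²` (additive reduction: `p ∣ A`) -/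
def Cond6 (c : ℤ × ℤ) : ℕ :=
  ∏ p ∈ (Int.natAbs (4 * c.1 ^ 3 + 27 * c.2 ^ 2)).primeFactors.filter (fun p => 5 ≤ p),
    if (p : ℤ) ∣ c.1 then p ^ 2 else p

/-- the admissible factors: functions with values between `1` and `2 ^ 8 * 3 ^ 5`, for instance the
part of the conductor composed of the primes 2 and 3, or `f = 1` -/
def Factor (f : ℤ × ℤ → ℕ) : Prop := ∀ c, 1 ≤ f c ∧ f c ≤ 2 ^ 8 * 3 ^ 5

open Classical in
/-- The pairs `(A, B)` of integers such that `4 A³ + 27 B² ≠ 0`, there is no prime `p` with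
`p⁴ ∣ A` and `p⁶ ∣ B`, `y² = x³ + A x + B` has a rational cyclic subgroup of order 4, and
`f * Cond6 ≤ Z` (for a suitable factor `f`: the conductor is at most `Z`). Every elliptic curve over
`ℚ` with a rational cyclic subgroup of order 4 is isomorphic to `E` of exactly one pair with the first
three properties. -/
def Fam (f : ℤ × ℤ → ℕ) (Z : ℕ) : Set (ℤ × ℤ) :=
  {c : ℤ × ℤ | 4 * c.1 ^ 3 + 27 * c.2 ^ 2 ≠ 0 ∧
    (∀ p : ℕ, p.Prime → ¬ ((p : ℤ) ^ 4 ∣ c.1 ∧ (p : ℤ) ^ 6 ∣ c.2)) ∧
    Cyclic4 c.1 c.2 ∧ f c * Cond6 c ≤ Z}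

/-- the proportion of the curves of `S` in the family -/
noncomputable def proportion (f : ℤ × ℤ → ℕ) (S : Set (ℤ × ℤ)) (Z : ℕ) : ℝ :=
  ((Fam f Z ∩ S).ncard : ℝ) / (Fam f Z).ncard

/-- the number field `K` is generated by square roots of the integers `d i` -/
def Gen (K : Type) [Field K] [NumberField K] {s : ℕ} (d : Fin s → ℤ) : Prop :=
  ∃ x : Fin s → K, (∀ i, x i ^ 2 = (d i : K)) ∧
    IntermediateField.adjoin ℚ (Set.range x) = ⊤

/-- the number of the primes that divide one of the `d i` -/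
noncomputable def primes {s : ℕ} (d : Fin s → ℤ) : ℕ := (∏ i, d i).natAbs.primeFactors.card

/-- the sum of the rank of `E(K)` and of the corank of the 2-primary part of `Ш(E / K)` -/
noncomputable def rc (K : Type) [Field K] [NumberField K] (c : ℤ × ℤ) : ℕ :=
  rk (E K c) + crk (E K c)

/-! ### Proofs -/

lemma cond_eq (c : ℤ × ℤ) : Pool.Agent.Y679.Cr.cs c = Cond6 c := by
  unfold Pool.Agent.Y679.Cr.cs Pool.Agent.H925R.Szpiro.condS Cond6
  rw [Pool.Agent.Y679.Cr.D_neg, Int.natAbs_neg]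
  refine prod_congr rfl fun p _ => ?_
  by_cases h : (p : ℤ) ∣ c.1
  · rw [if_pos h, if_pos (Int.dvd_neg.2 h)]
  · rw [if_neg h, if_neg fun h' => h (Int.dvd_neg.1 h')]

lemma bdd {f : ℤ × ℤ → ℕ} (hf : Factor f) : Pool.Agent.Y679.Cr.Bdd f :=
  fun c => ⟨(hf c).1, (hf c).2.trans (by norm_num)⟩

lemma Fam_eq (f : ℤ × ℤ → ℕ) (Z : ℕ) :
    Fam f Z = Pool.Agent.Y679.Cr.Gm Pool.Agent.Q17.IG.P4 f Z := by
  ext c
  unfold Fam Pool.Agent.Y679.Cr.Gm Pool.Agent.Q17.IG.P4 Pool.Agent.Q17.IG.Rd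
  rw [Set.mem_ofPred_eq, Set.mem_ofPred_eq, cond_eq]
  constructor
  · rintro ⟨h1, h2, h3, h4⟩
    exact ⟨⟨h1, h2, (Pool.Agent.Q17.IG.cyclic4_iff h1).1 h3⟩, h4⟩
  · rintro ⟨⟨h1, h2, h3⟩, h4⟩
    exact ⟨h1, h2, (Pool.Agent.Q17.IG.cyclic4_iff h1).2 h3, h4⟩

lemma Fam_fin {f : ℤ × ℤ → ℕ} (hf : Factor f) (Z : ℕ) : (Fam f Z).Finite := by
  rw [Fam_eq]
  exact Pool.Agent.Q17.IG.G4_fin (bdd hf) Z

lemma Fam_mono (f : ℤ × ℤ → ℕ) {Z Z' : ℕ} (h : Z ≤ Z') : Fam f Z ⊆ Fam f Z' :=
  fun _ hc => ⟨hc.1, hc.2.1, hc.2.2.1, hc.2.2.2.trans h⟩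

lemma sub_dvd {s : ℕ} (d : Fin s → ℤ) (T : Finset (Fin s)) :
    (∏ i ∈ T, d i).natAbs ∣ (∏ i, d i).natAbs :=
  Int.natAbs_dvd_natAbs.2 (prod_dvd_prod_of_subset _ _ _ (subset_univ T))

lemma prod_ne {s : ℕ} {d : Fin s → ℤ} (hd : ∀ i, d i ≠ 0) (T : Finset (Fin s)) :
    ∏ i ∈ T, d i ≠ 0 := prod_ne_zero_iff.2 fun i _ => hd i

/-- the finite set of the curves -/
noncomputable def FF {f : ℤ × ℤ → ℕ} (hf : Factor f) (Z : ℕ) : Finset (ℤ × ℤ) :=
  (Fam_fin hf Z).toFinset

lemma coe_FF {f : ℤ × ℤ → ℕ} (hf : Factor f) (Z : ℕ) : (FF hf Z : Set (ℤ × ℤ)) = Fam f Z :=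
  Set.Finite.coe_toFinset _

lemma card_FF {f : ℤ × ℤ → ℕ} (hf : Factor f) (Z : ℕ) : (Fam f Z).ncard = (FF hf Z).card := by
  rw [← coe_FF hf, Set.ncard_coe_finset]

lemma proportion_eq {f : ℤ × ℤ → ℕ} (hf : Factor f) (S : Set (ℤ × ℤ)) :
    proportion f S = Pool.Agent.TH344.GT.pr (FF hf) S := by
  funext Z
  unfold proportion Pool.Agent.TH344.GT.pr
  rw [coe_FF, card_FF hf]

open Classical in
/-- **Theorem.** Order the elliptic curves over `ℚ` with a rational cyclic subgroup of order 4 by the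
conductor (times an arbitrary factor as in `Factor`), with no bound on the height or on the
discriminant.
(1) There are finitely many curves of size at most `Z`, and for large `Z` their number is between
`c Z ^ (2/3)` and `C Z ^ (2/3)`.
(2) For all these curves `E` and all multiquadratic fields `K` (among them `ℚ`) the corank of the
2-primary part of `Ш(E / K)` is finite.
(3) There is a set `X` of curves of density zero such that for all `s`, `k` and `A` there is `C` such
that for all `Z` and all number fields `K = ℚ(√d_1, ..., √d_s)` with `|d_1 ... d_s| ≤ Z ^ A`: if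
`M = C (16 * 512 ^ (2 ^ s k)) ^ ω` with the number `ω` of the primes dividing `d_1 ... d_s`, then the
sum of `(2 ^ (rank E(K) + corank Ш(E / K)[2^∞])) ^ k` over the curves of size at most `Z` outside of
`X` is at most `M` times the number of the curves of size at most `Z`, and at most `M / 2 ^ (k r)`
times this number of the curves of size at most `Z` outside of `X` have
`rank E(K) + corank Ш(E / K)[2^∞] ≥ r`.
(4) For all these fields `K` and all `B` the upper density of the curves with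
`rank E(K) + corank Ш(E / K)[2^∞] ≥ r`, times `B ^ r`, tends to `0` as `r → ∞`. -/
theorem result :
    (∃ c C : ℝ, 0 < c ∧ ∀ f : ℤ × ℤ → ℕ, Factor f → (∀ Z : ℕ, (Fam f Z).Finite) ∧
      ∀ᶠ Z : ℕ in atTop, c * (Z : ℝ) ^ ((2 : ℝ) / 3) ≤ ((Fam f Z).ncard : ℝ) ∧
        ((Fam f Z).ncard : ℝ) ≤ C * (Z : ℝ) ^ ((2 : ℝ) / 3)) ∧
    (∀ (s : ℕ) (d : Fin s → ℤ), (∀ i, d i ≠ 0) → ∀ (K : Type) [Field K] [NumberField K],
      Gen K d → ∀ (f : ℤ × ℤ → ℕ) (Z : ℕ), ∀ c ∈ Fam f Z, BddAbove {q | HasDiv (E K c) q}) ∧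
    (∃ X : Set (ℤ × ℤ), (∀ f : ℤ × ℤ → ℕ, Factor f → Tendsto (proportion f X) atTop (𝓝 0)) ∧
      ∀ s k A : ℕ, ∃ C : ℝ, ∀ f : ℤ × ℤ → ℕ, Factor f → ∀ (Z : ℕ) (d : Fin s → ℤ),
      (∀ i, d i ≠ 0) → (∏ i, d i).natAbs ≤ Z ^ A → ∀ (K : Type) [Field K] [NumberField K],
      Gen K d → ∀ S : Finset (ℤ × ℤ), (S : Set (ℤ × ℤ)) = Fam f Z \ X →
        ∑ c ∈ S, ((2 : ℝ) ^ rc K c) ^ k ≤
          C * (16 * 512 ^ (2 ^ s * k)) ^ primes d * ((Fam f Z).ncard : ℝ) ∧
        ∀ r : ℕ, ((S.filter (fun c => r ≤ rc K c)).card : ℝ) ≤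
          C * (16 * 512 ^ (2 ^ s * k)) ^ primes d * ((Fam f Z).ncard : ℝ) / 2 ^ (k * r)) ∧
    ∀ (s : ℕ) (d : Fin s → ℤ), (∀ i, d i ≠ 0) → ∀ (K : Type) [Field K] [NumberField K],
      Gen K d → ∀ f : ℤ × ℤ → ℕ, Factor f → ∀ B : ℝ, Tendsto (fun r : ℕ =>
        B ^ r * limsup (proportion f {c | r ≤ rc K c}) atTop) atTop (𝓝 0) := by
  obtain ⟨n, X, hn, hdens, hmom⟩ := Pool.Agent.Q17.IG.con4
  have hPr : ∀ {f : ℤ × ℤ → ℕ} {Z : ℕ} {c : ℤ × ℤ}, c ∈ Fam f Z → Pool.Agent.Q17.IG.P4 c := by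
    intro f Z c hc
    rw [Fam_eq] at hc
    exact hc.1
  -- one curve over one field
  have one : ∀ (c : ℤ × ℤ), Pool.Agent.Q17.IG.P4 c → ∀ (K : Type) [Field K] [NumberField K] (s : ℕ)
      (d : Fin s → ℤ), Gen K d → (∀ i, d i ≠ 0) → ∀ q : ℕ, HasDiv (E K c) q →
      (2 : ℝ) ^ (rk (E K c) + q) ≤ ∏ T : Finset (Fin s), n (∏ i ∈ T, d i) c := by
    intro c hc K _ _ s d hK hd q hq
    obtain ⟨h1, e1, e2, e3, h2⟩ := hn c hc
    obtain ⟨e, u, v, r, L⟩ := Pool.Agent.Q17.IG.ph_spec hc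
    exact Pool.Agent.Q17.IG.one_gen hK hd hc.1 (fun T => Pool.Agent.W307.RT.Sh
      ((∏ i ∈ T, d i) ^ 2 * (Pool.Agent.Q17.IG.ph c).1)
      ((∏ i ∈ T, d i) ^ 3 * (Pool.Agent.Q17.IG.ph c).2)) (fun T => n (∏ i ∈ T, d i) c)
      (fun T => h1 _ (prod_ne hd T))
      (fun T => Pool.Agent.W307.RG.fin_tw L.D' h2 (prod_ne hd T))
      (fun T => L.two (prod_ne hd T)) hq
  have hnn : ∀ (c : ℤ × ℤ), Pool.Agent.Q17.IG.P4 c → ∀ e : ℤ, e ≠ 0 → 0 ≤ n e c := by
    intro c hc e he
    exact le_trans (by positivity) ((hn c hc).1 e he).2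
  -- the moments
  have hmain : ∀ s k A : ℕ, ∃ C : ℝ, 0 ≤ C ∧ ∀ f : ℤ × ℤ → ℕ, Factor f → ∀ (Z : ℕ)
      (d : Fin s → ℤ), (∀ i, d i ≠ 0) → (∏ i, d i).natAbs ≤ Z ^ A → ∀ S : Finset (ℤ × ℤ),
      (S : Set (ℤ × ℤ)) ⊆ Fam f Z \ X →
      ∑ c ∈ S, (∏ T : Finset (Fin s), n (∏ i ∈ T, d i) c) ^ k ≤
        C * (16 * 512 ^ (2 ^ s * k)) ^ primes d * ((Fam f Z).ncard : ℝ) := by
    intro s k A
    have hc2 : Fintype.card (Finset (Fin s)) = 2 ^ s := by
      rw [Fintype.card_finset, Fintype.card_fin]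
    rcases Nat.eq_zero_or_pos k with rfl | hk
    · refine ⟨1, zero_le_one, fun f hf Z d hd _ S hS => ?_⟩
      have h1 : (1 : ℝ) ≤ (16 * 512 ^ (2 ^ s * 0)) ^ primes d := one_le_pow₀ (by norm_num)
      have h2 : ((S.card : ℕ) : ℝ) ≤ ((Fam f Z).ncard : ℝ) := by
        rw [← Set.ncard_coe_finset]
        exact_mod_cast Set.ncard_le_ncard (hS.trans Set.sdiff_subset) (Fam_fin hf Z)
      simp only [pow_zero, sum_const, nsmul_eq_mul, mul_one]
      calc ((S.card : ℕ) : ℝ) ≤ 1 * 1 * ((Fam f Z).ncard : ℝ) := by rw [one_mul, one_mul]; exact h2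
        _ ≤ 1 * (16 * 512 ^ (2 ^ s * 0)) ^ primes d * ((Fam f Z).ncard : ℝ) := by gcongr
    · have hθ : (0 : ℝ) < ((2 ^ s * k : ℕ) : ℝ) := by
        have : 0 < 2 ^ s * k := by positivity
        exact_mod_cast this
      obtain ⟨C, hC0, hC⟩ := hmom ((2 ^ s * k : ℕ) : ℝ) hθ (A : ℝ) (Nat.cast_nonneg _)
      refine ⟨2 ^ s * C, by positivity, fun f hf Z d hd hdA S hS => ?_⟩
      have hSP : ∀ c ∈ S, Pool.Agent.Q17.IG.P4 c := fun c hc => hPr (hS (mem_coe.2 hc)).1
      calc ∑ c ∈ S, (∏ T : Finset (Fin s), n (∏ i ∈ T, d i) c) ^ k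
          ≤ ∑ c ∈ S, ∑ T : Finset (Fin s), n (∏ i ∈ T, d i) c ^ (2 ^ s * k) := by
            refine sum_le_sum fun c hc => ?_
            have := Pool.Agent.TH841.NF.prod_pow_le (fun T : Finset (Fin s) =>
              n (∏ i ∈ T, d i) c) (fun T => hnn c (hSP c hc) _ (prod_ne hd T)) k
            rw [hc2] at this
            exact this
        _ = ∑ T : Finset (Fin s), ∑ c ∈ S, n (∏ i ∈ T, d i) c ^ (2 ^ s * k) := sum_comm
        _ ≤ ∑ _T : Finset (Fin s), C * (16 * 512 ^ (2 ^ s * k)) ^ primes d *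
            ((Fam f Z).ncard : ℝ) := by
            refine sum_le_sum fun T _ => ?_
            have hdvd := sub_dvd d T
            have hne := prod_ne hd T
            have hne1 : (∏ i, d i).natAbs ≠ 0 := Int.natAbs_ne_zero.2 (prod_ne hd univ)
            have h1 := hC f (bdd hf) Z S (by rw [← Fam_eq]; exact hS) (∏ i ∈ T, d i) hne (by
              rw [Real.rpow_natCast]
              exact_mod_cast (Nat.le_of_dvd (Nat.pos_of_ne_zero hne1) hdvd).trans hdA)
            simp only [Real.rpow_natCast] at h1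
            rw [← Fam_eq] at h1
            refine h1.trans ?_
            have h2 : (∏ i ∈ T, d i).natAbs.primeFactors.card ≤ primes d :=
              card_le_card (Nat.primeFactors_mono hdvd hne1)
            have h3 : (1 : ℝ) ≤ 16 * 512 ^ (2 ^ s * k) := by
              have : (1 : ℝ) ≤ 512 ^ (2 ^ s * k) := one_le_pow₀ (by norm_num)
              linarith
            have h4 := pow_le_pow_right₀ h3 h2
            gcongr
        _ = _ := by
            rw [sum_const, card_univ, hc2, nsmul_eq_mul]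
            push_cast
            ring
  refine ⟨?_, ?_, ⟨X, fun f hf => ?_, fun s k A => ?_⟩, ?_⟩
  · obtain ⟨c, Z0, hc, g1⟩ := Pool.Agent.Q17.IG.G4_ge
    obtain ⟨C, Z1, -, g2⟩ := Pool.Agent.Q17.IG.G4_up
    refine ⟨c, C, hc, fun f hf => ⟨fun Z => Fam_fin hf Z, ?_⟩⟩
    filter_upwards [eventually_ge_atTop Z0, eventually_ge_atTop Z1] with Z u1 u2
    rw [Fam_eq]
    exact ⟨g1 f (bdd hf) Z u1, g2 f (bdd hf) Z u2⟩
  · intro s d hd K _ _ hK f Z c hc
    exact Pool.Agent.TH841.NF.bdd_of fun q hq => one c (hPr hc) K s d hK hd q hq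
  · have h := hdens f (bdd hf)
    refine h.congr fun Z => ?_
    unfold proportion
    rw [Fam_eq]
  · obtain ⟨C, -, hC⟩ := hmain s k A
    refine ⟨C, fun f hf Z d hd hdA K _ _ hK S hS => ?_⟩
    have h := Pool.Agent.TH841.NF.famN S (fun _ => K) (fun c => E K c)
      (fun c => ∏ T : Finset (Fin s), n (∏ i ∈ T, d i) c) k _
      (fun c hc q hq => one c (hPr (by
        have : c ∈ (S : Set (ℤ × ℤ)) := mem_coe.2 hc
        rw [hS] at this
        exact this.1)) K s d hK hd q hq) (hC f hf Z d hd hdA S hS.le)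
    exact ⟨h.2.1, h.2.2⟩
  · intro s d hd K _ _ hK f hf B
    have hexc : Pool.Agent.TH344.GT.EXC (FF hf) (fun c => 2 ^ rc K c) := by
      refine ⟨X, fun ε hε => ?_, fun k => ?_⟩
      · have h := hdens f (bdd hf)
        rw [Metric.tendsto_atTop] at h
        obtain ⟨H0, h⟩ := h ε hε
        refine ⟨H0, fun H hH => ?_⟩
        have h1 := h H hH
        rw [← Fam_eq, Real.dist_eq, sub_zero, abs_of_nonneg (by positivity)] at h1
        have h2 : (Fam f H ∩ X).ncard = ((FF hf H).filter (fun c => c ∈ X)).card := by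
          rw [← Set.ncard_coe_finset]
          congr 1
          ext c
          rw [mem_coe, mem_filter, ← mem_coe, coe_FF]
          exact Iff.rfl
        rw [h2, card_FF hf] at h1
        rcases Nat.eq_zero_or_pos (FF hf H).card with h3 | h3
        · have h4 : ((FF hf H).filter (fun c => c ∈ X)).card = 0 := by
            have := card_le_card (filter_subset (fun c => c ∈ X) (FF hf H))
            omega
          rw [h4, h3]
          simp
        · have h4 : (0 : ℝ) < (FF hf H).card := by exact_mod_cast h3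
          exact ((div_lt_iff₀ h4).1 h1).le
      · obtain ⟨C, hC0, hC⟩ := hmain s k 1
        obtain ⟨D, hD⟩ : ∃ D : ℕ, D = (∏ i, d i).natAbs := ⟨_, rfl⟩
        obtain ⟨Q, hQ⟩ : ∃ Q : ℝ, Q = C * (16 * 512 ^ (2 ^ s * k)) ^ primes d := ⟨_, rfl⟩
        have hQ0 : 0 ≤ Q := by rw [hQ]; positivity
        have key : ∀ H : ℕ, D ≤ H → ∀ S : Finset (ℤ × ℤ), (S : Set (ℤ × ℤ)) ⊆ Fam f H \ X →
            ∑ c ∈ S, (((2 ^ rc K c : ℕ) : ℝ)) ^ k ≤ Q * (FF hf H).card := by
          intro H hH S hS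
          have h1 := hC f hf H d hd (by rw [pow_one, ← hD]; exact hH) S hS
          rw [← hQ, card_FF hf] at h1
          refine le_trans (sum_le_sum fun c hc => ?_) h1
          have hP := hPr (hS (mem_coe.2 hc)).1
          have h2 := one c hP K s d hK hd _ (Pool.Agent.TH841.NF.crk_mem
            (Pool.Agent.TH841.NF.bdd_of fun q hq => one c hP K s d hK hd q hq))
          refine pow_le_pow_left₀ (Nat.cast_nonneg _) ?_ k
          unfold rc
          push_cast
          exact h2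
        refine ⟨Q + Q * (FF hf D).card, fun H => ?_⟩
        have hsub : (((FF hf H).filter (fun c => c ∉ X) : Finset (ℤ × ℤ)) : Set (ℤ × ℤ)) ⊆
            Fam f H \ X := by
          intro c hc
          rw [mem_coe, mem_filter, ← mem_coe, coe_FF] at hc
          exact hc
        rcases le_total D H with hH | hH
        · refine (key H hH _ hsub).trans ?_
          have : 0 ≤ Q * (FF hf D).card := by positivity
          exact mul_le_mul_of_nonneg_right (by linarith) (Nat.cast_nonneg _)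
        · rcases (FF hf H).eq_empty_or_nonempty with he | hne
          · rw [he]
            simp
          · have h1 := key D le_rfl ((FF hf H).filter (fun c => c ∉ X)) (fun c hc =>
              ⟨Fam_mono f hH (hsub hc).1, (hsub hc).2⟩)
            refine h1.trans ?_
            have h2 : (1 : ℝ) ≤ (FF hf H).card := by exact_mod_cast card_pos.2 hne
            have h3 : 0 ≤ Q * (FF hf D).card := by positivity
            calc Q * (FF hf D).card ≤ (Q + Q * (FF hf D).card) * 1 := by linarith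
              _ ≤ _ := mul_le_mul_of_nonneg_left h2 (by linarith)
    have h1 := Pool.Agent.TH344.GT.tail (FF hf) hexc 1 (S := fun r => {c | r ≤ rc K c})
      (fun r H c hc hr => by
        rw [pow_one]
        exact Nat.pow_le_pow_right (by norm_num) hr) B
    refine h1.congr fun r => ?_
    unfold Pool.Agent.TH344.GT.ud
    rw [← proportion_eq hf]

end Pool.Agent.Results.MP_6073f3_nt.CyclicFourByConductor
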