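import Mathlib
import Pool.Agent.Q17.LS.Rn
import Pool.Agent.Q17.LS.Cdr

/-!
# Ranks, root numbers and Tate-Shafarevich groups in the family `X_0(4)`, by conductor

All elliptic curves `E` over `ℚ` with a rational cyclic subgroup of order 4 are ordered by the
conductor, without any bound on the height or on the discriminant. For every `r ≥ 0` a positive
proportion of them has the following properties: the rank of `E` plus the dimension of `Ш(E')[2]` is
`r`, where `E'` is the quotient of `E` by a rational point of order two; the rank of `E` plus the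
dimension of `(2 Ш(E))[2]` (the 4-rank of `Ш(E)`) is at most `r`; the root number is `(-1) ^ r`; and the
dimension of `Ш(E)[2]` is near `(3 / 2) log log Z`.

The Tate-Shafarevich group is that of `Pool.Agent.TH841.SH.ShaDef`: continuous cocycles of the
absolute Galois group of `ℚ` with values in the points over the algebraic closure, locally trivial at
all the places of `ℚ`, modulo the coboundaries. The condition `Cyclic4 A B` is defined in
`Pool.Agent.Q17.IG.Cyc`: there is a point `P` of order 4 of `y² = x³ + A x + B` over the algebraic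
closure of `ℚ` such that `σ P = P` or `σ P = -P` for all automorphisms `σ`.
-/

set_option autoImplicit false

namespace Pool.Agent.Results.MP_6073f3_nt.CyclicFourRootNumbers

open Finset Filter Topology

open Pool.Agent.TH841.SH.D (Sha rk)

open Pool.Agent.Q17.IG (Cyclic4)

/-- the curve `y² = x³ + A x + B`, `c = (A, B)` -/
def E (c : ℤ × ℤ) : WeierstrassCurve ℚ := ⟨0, 0, 0, (c.1 : ℚ), (c.2 : ℚ)⟩

/-- The prime-to-6 part of the conductor of `y² = x³ + A x + B` (there is no prime `p` with `p⁴ ∣ A`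
and `p⁶ ∣ B`): the product over the primes `p ≥ 5` dividing `4 A³ + 27 B²` of `p` (multiplicative
reduction: `p ∤ A`) or `p²` (additive reduction: `p ∣ A`) -/
def Cond6 (c : ℤ × ℤ) : ℕ :=
  ∏ p ∈ (Int.natAbs (4 * c.1 ^ 3 + 27 * c.2 ^ 2)).primeFactors.filter (fun p => 5 ≤ p),
    if (p : ℤ) ∣ c.1 then p ^ 2 else p

/-- the admissible factors: functions with values between `1` and `2 ^ 8 * 3 ^ 5`, for instance the
part of the conductor composed of the primes 2 and 3, or `f = 1` -/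
def Factor (f : ℤ × ℤ → ℕ) : Prop := ∀ c, 1 ≤ f c ∧ f c ≤ 2 ^ 8 * 3 ^ 5

open Classical in
/-- The pairs `(A, B)` of integers such that `4 A³ + 27 B² ≠ 0`, there is no prime `p` with
`p⁴ ∣ A` and `p⁶ ∣ B`, `y² = x³ + A x + B` has a rational cyclic subgroup of order 4, and
`f * Cond6 ≤ Z` (for a suitable factor `f`: the conductor is at most `Z`). Every elliptic curve over
`ℚ` with a rational cyclic subgroup of order 4 is isomorphic to `y² = x³ + A x + B` for exactly one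
pair with the first three properties. -/
def Fam (f : ℤ × ℤ → ℕ) (Z : ℕ) : Set (ℤ × ℤ) :=
  {c : ℤ × ℤ | 4 * c.1 ^ 3 + 27 * c.2 ^ 2 ≠ 0 ∧
    (∀ p : ℕ, p.Prime → ¬ ((p : ℤ) ^ 4 ∣ c.1 ∧ (p : ℤ) ^ 6 ∣ c.2)) ∧
    Cyclic4 c.1 c.2 ∧ f c * Cond6 c ≤ Z}

/-- the proportion of the curves of `S` in the family -/
noncomputable def proportion (f : ℤ × ℤ → ℕ) (S : Set (ℤ × ℤ)) (Z : ℕ) : ℝ :=
  ((Fam f Z ∩ S).ncard : ℝ) / (Fam f Z).ncard

/-- `c'` is the quotient of the curve `c` by a rational point `(e, 0)` of order two: the curve `c` is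
`y² = (x - e) (x² + e x + q² - 2 e²)`, with `X = x - e` it is `y² = X (X² + 3 e X + q²)`, the quotient by
`(0, 0)` is `Y² = X (X² - 6 e X + 9 e² - 4 q²)`, and with `X = x + 2 e` it is
`Y² = x³ - (3 e² + 4 q²) x + 2 e³ - 8 q² e`; the curve `c'` is this curve, scaled by `u`. -/
def Quotient (c c' : ℤ × ℤ) : Prop :=
  ∃ (e q : ℤ) (u : ℕ), 0 < u ∧ c.1 = q ^ 2 - 3 * e ^ 2 ∧ c.2 = 2 * e ^ 3 - q ^ 2 * e ∧
    (u : ℤ) ^ 4 * c'.1 = -(3 * e ^ 2 + 4 * q ^ 2) ∧
    (u : ℤ) ^ 6 * c'.2 = 2 * e ^ 3 - 8 * q ^ 2 * e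

/-- `a_p = p + 1 - #V(𝔽_p)`, that is `p` minus the number of the affine solutions of the Weierstrass
equation modulo `p`; for a prime of multiplicative reduction this is `1` (split) or `-1`
(non-split) -/
noncomputable def ap (V : WeierstrassCurve ℤ) (p : ℕ) : ℤ :=
  p - Nat.card {z : ZMod p × ZMod p // z.2 ^ 2 + V.a₁ * z.1 * z.2 + V.a₃ * z.2 =
    z.1 ^ 3 + V.a₂ * z.1 ^ 2 + V.a₄ * z.1 + V.a₆}

/-- the equation with integer coefficients is nonsingular over `ℚ` and at every prime the reduction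
is good or multiplicative (then it is a minimal equation) -/
def Semistable (V : WeierstrassCurve ℤ) : Prop :=
  V.Δ ≠ 0 ∧ ∀ p : ℕ, p.Prime → (p : ℤ) ∣ V.Δ → ¬ (p : ℤ) ∣ V.c₄

/-- the conductor of a semistable curve -/
def conductor (V : WeierstrassCurve ℤ) : ℕ := ∏ p ∈ V.Δ.natAbs.primeFactors, p

/-- The root number of a semistable curve: the product of the local root numbers `-1` at infinity
and `-a_p` at the primes of bad (multiplicative) reduction. -/
noncomputable def wSemi (V : WeierstrassCurve ℤ) : ℤ :=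
  -∏ p ∈ V.Δ.natAbs.primeFactors, (-ap V p)

/-- the quadratic twist by `d` of the curve `V` (the curve `y² = x³ + b₂ x² + 8 b₄ x + 16 b₆`) -/
def twist (V : WeierstrassCurve ℤ) (d : ℕ) : WeierstrassCurve ℚ :=
  ⟨0, (d : ℚ) * V.b₂, 0, 8 * (d : ℚ) ^ 2 * V.b₄, 16 * (d : ℚ) ^ 3 * V.b₆⟩

/-- `w` is the root number of `W`, for the quadratic twists `W` of a semistable curve `V` of conductor
`N` by a positive fundamental discriminant `d ≡ 1` modulo `4` prime to `N` (`d = 1` allowed): it is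
`χ_d(-N) w_V`, where `χ_d(-N) = χ_d(N)` is the Jacobi symbol `(N / d)` -/
def HasRootNumber (W : WeierstrassCurve ℚ) (w : ℤ) : Prop :=
  ∃ (V : WeierstrassCurve ℤ) (d : ℕ), Semistable V ∧ Squarefree d ∧ d % 4 = 1 ∧
    d.Coprime V.Δ.natAbs ∧ (∃ C : WeierstrassCurve.VariableChange ℚ, C • W = twist V d) ∧
    w = jacobiSym (conductor V) d * wSemi V

/-- `k` is near `(3 / 2) log log Z` -/
def Near (η : ℝ) (Z k : ℕ) : Prop :=
  |(k : ℝ) - 3 / 2 * Real.log (Real.log Z)| ≤ η * Real.log (Real.log Z)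

/-- The curves `E` of the theorem. With the quotient `E'` by a rational point of order two:
`rank E + dim Ш(E')[2] = r` and the root number of `E'` (which is that of `E`) is `(-1) ^ r`; moreover
`rank E + dim (2 Ш(E))[2] ≤ r`, and `dim Ш(E)[2]` is near `(3 / 2) log log Z`. -/
def Typ (r : ℕ) (η : ℝ) (Z : ℕ) (c : ℤ × ℤ) : Prop :=
  (∃ c' : ℤ × ℤ, Quotient c c' ∧
    2 ^ rk (E c) * Nat.card {x : Sha (E c') // x + x = 0} = 2 ^ r ∧
    HasRootNumber (E c') ((-1) ^ r)) ∧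
  2 ^ rk (E c) * Nat.card {x : Sha (E c) // x + x = 0 ∧ ∃ y, x = y + y} ≤ 2 ^ r ∧
  ∃ k : ℕ, Near η Z k ∧ Nat.card {x : Sha (E c) // x + x = 0} = 2 ^ k

/-! ### Proofs -/

lemma cond_eq (c : ℤ × ℤ) : Pool.Agent.Y679.Cr.cs c = Cond6 c := by
  unfold Pool.Agent.Y679.Cr.cs Pool.Agent.H925R.Szpiro.condS Cond6
  rw [Pool.Agent.Y679.Cr.D_neg, Int.natAbs_neg]
  refine prod_congr rfl fun p _ => ?_
  by_cases h : (p : ℤ) ∣ c.1
  · rw [if_pos h, if_pos (Int.dvd_neg.2 h)]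
  · rw [if_neg h, if_neg fun h' => h (Int.dvd_neg.1 h')]

lemma bdd {f : ℤ × ℤ → ℕ} (hf : Factor f) : Pool.Agent.Y679.Cr.Bdd f :=
  fun c => ⟨(hf c).1, (hf c).2.trans (by norm_num)⟩

lemma Fam_eq (f : ℤ × ℤ → ℕ) (Z : ℕ) :
    Fam f Z = Pool.Agent.Y679.Cr.Gm Pool.Agent.Q17.IG.P4 f Z := by
  ext c
  unfold Fam Pool.Agent.Y679.Cr.Gm Pool.Agent.Q17.IG.P4 Pool.Agent.Q17.IG.Rd
  rw [Set.mem_ofPred_eq, Set.mem_ofPred_eq, cond_eq]
  constructor
  · rintro ⟨h1, h2, h3, h4⟩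
    exact ⟨⟨h1, h2, (Pool.Agent.Q17.IG.cyclic4_iff h1).1 h3⟩, h4⟩
  · rintro ⟨⟨h1, h2, h3⟩, h4⟩
    exact ⟨h1, h2, (Pool.Agent.Q17.IG.cyclic4_iff h1).2 h3, h4⟩

lemma Fam_fin {f : ℤ × ℤ → ℕ} (hf : Factor f) (Z : ℕ) : (Fam f Z).Finite := by
  rw [Fam_eq]
  exact Pool.Agent.Q17.IG.G4_fin (bdd hf) Z

lemma card_tendsto {f : ℤ × ℤ → ℕ} (hf : Factor f) :
    Tendsto (fun Z : ℕ => (Fam f Z).ncard) atTop atTop := by
  obtain ⟨c, Z0, hc, h⟩ := Pool.Agent.Q17.IG.G4_ge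
  rw [← tendsto_natCast_atTop_iff (R := ℝ)]
  have h1 : Tendsto (fun Z : ℕ => c * (Z : ℝ) ^ ((2 : ℝ) / 3)) atTop atTop :=
    Tendsto.const_mul_atTop hc
      ((tendsto_rpow_atTop (by norm_num)).comp tendsto_natCast_atTop_atTop)
  refine tendsto_atTop_mono' atTop (eventually_atTop.2 ⟨Z0, fun Z hZ => ?_⟩) h1
  change c * (Z : ℝ) ^ ((2 : ℝ) / 3) ≤ ((Fam f Z).ncard : ℝ)
  rw [Fam_eq]
  exact h f (bdd hf) Z hZ

lemma pos_card {f : ℤ × ℤ → ℕ} (hf : Factor f) :
    ∀ᶠ Z : ℕ in atTop, (0 : ℝ) < ((Fam f Z).ncard : ℝ) := by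
  filter_upwards [(card_tendsto hf).eventually_gt_atTop 0] with Z hZ
  exact_mod_cast hZ

lemma typ_of {r : ℕ} {η : ℝ} {Z : ℕ} {c : ℤ × ℤ}
    (h : Pool.Agent.Q17.IG.Q4 (Pool.Agent.Y667.PA.TPR r) c)
    (hok : Pool.Agent.Q17.LS.Ok η (Z : ℝ) (Pool.Agent.W307.RT.Sh c.1 c.2)) : Typ r η Z c := by
  obtain ⟨c', ⟨e, q, u, s, L⟩, -, h1, h2, h3⟩ := Pool.Agent.Q17.LS.rn_of h
  exact ⟨⟨c', ⟨e, q, u, L.hu, L.hc1, L.hc2, L.h1, L.h2⟩, h1, h3.2.2.1⟩, h2, hok⟩

/-- the curves with an exceptional group -/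
def Bad (η : ℝ) (Z : ℕ) : Set (ℤ × ℤ) := {c | ¬ Pool.Agent.Q17.LS.Ok η (Z : ℝ)
  (Pool.Agent.W307.RT.Sh c.1 c.2)}

/-- the exceptional curves -/
lemma bad_le {η ε : ℝ} (hη : 0 < η) (hε : 0 < ε) {f : ℤ × ℤ → ℕ}
    (hf : Factor f) : ∀ᶠ Z : ℕ in atTop, ((Fam f Z ∩ Bad η Z).ncard : ℝ) ≤
      ε * ((Fam f Z).ncard : ℝ) := by
  obtain ⟨Z0, h⟩ := Pool.Agent.Q17.LS.CD.cdr 1 one_ne_zero η ε hη hε
  filter_upwards [eventually_ge_atTop Z0] with Z hZ
  have h1 := h f (bdd hf) Z hZ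
  simp only [Pool.Agent.Q17.IG.Sh_one] at h1
  rw [Fam_eq]
  exact h1

/-- **Theorem.** Order the elliptic curves over `ℚ` with a rational cyclic subgroup of order 4 by the
conductor (times an arbitrary factor as in `Factor`), with no bound on the height or on the
discriminant. There are finitely many curves of size at most `Z`, and their number tends to infinity.
For every `r ≥ 0` there is `δ > 0` such that for every `η > 0`, every factor and all large `Z` at least a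
proportion `δ` of these curves `E` has the following properties. For the quotient `E'` of `E` by a
rational point of order two, `rank E + dim Ш(E')[2] = r` and the root number is `(-1) ^ r`. The rank of
`E` plus the dimension of `(2 Ш(E))[2]` is at most `r`. The dimension of `Ш(E)[2]` differs from
`(3 / 2) log log Z` by at most `η log log Z`. -/
theorem result :
    (∀ f : ℤ × ℤ → ℕ, Factor f → (∀ Z : ℕ, (Fam f Z).Finite) ∧
      Tendsto (fun Z : ℕ => (Fam f Z).ncard) atTop atTop) ∧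
    ∀ r : ℕ, ∃ δ : ℝ, 0 < δ ∧ ∀ η : ℝ, 0 < η → ∀ f : ℤ × ℤ → ℕ, Factor f →
      ∀ᶠ Z : ℕ in atTop, δ ≤ proportion f {c | Typ r η Z c} Z := by
  refine ⟨fun f hf => ⟨Fam_fin hf, card_tendsto hf⟩, fun r => ?_⟩
  obtain ⟨δ, hδ, h⟩ := Pool.Agent.Q17.IG.posC4 (Pool.Agent.Q17.LS.tpr_pos r)
  refine ⟨δ / 2, by positivity, fun η hη f hf => ?_⟩
  filter_upwards [h f (bdd hf), bad_le hη (half_pos hδ) hf, pos_card hf] with Z hZ hbad hpc
  rw [← Fam_eq, le_div_iff₀ hpc] at hZ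
  unfold proportion
  rw [le_div_iff₀ hpc]
  have h2 : Fam f Z ∩ {k | Pool.Agent.Q17.IG.Q4 (Pool.Agent.Y667.PA.TPR r) k} ⊆
      (Fam f Z ∩ {c | Typ r η Z c}) ∪ (Fam f Z ∩ Bad η Z) := by
    rintro c ⟨hc1, hc2⟩
    by_cases hok : Pool.Agent.Q17.LS.Ok η (Z : ℝ) (Pool.Agent.W307.RT.Sh c.1 c.2)
    · exact Or.inl ⟨hc1, typ_of hc2 hok⟩
    · exact Or.inr ⟨hc1, hok⟩
  have h3 : (Fam f Z ∩ {k | Pool.Agent.Q17.IG.Q4 (Pool.Agent.Y667.PA.TPR r) k}).ncard ≤
      (Fam f Z ∩ {c | Typ r η Z c}).ncard + (Fam f Z ∩ Bad η Z).ncard :=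
    (Set.ncard_le_ncard h2 (((Fam_fin hf Z).subset Set.inter_subset_left).union
      ((Fam_fin hf Z).subset Set.inter_subset_left))).trans (Set.ncard_union_le _ _)
  have h4 : ((Fam f Z ∩ {k | Pool.Agent.Q17.IG.Q4 (Pool.Agent.Y667.PA.TPR r) k}).ncard : ℝ) ≤
      ((Fam f Z ∩ {c | Typ r η Z c}).ncard : ℝ) + ((Fam f Z ∩ Bad η Z).ncard : ℝ) := by
    exact_mod_cast h3
  linarith

end Pool.Agent.Results.MP_6073f3_nt.CyclicFourRootNumbers
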