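import Mathlib
import Pool.Agent.Y667.SX.Main
import Pool.Agent.Y667.PA.MainR
import Pool.Agent.W307.RT.Tors
import Pool.Agent.Q100.DO.Compare

set_option autoImplicit false

/-!
# Ranks, Tate-Shafarevich groups and root numbers in the ordering by the minimal discriminant

All elliptic curves `E` over `ℚ` with full rational 2-torsion, ordered by the absolute value of the
minimal discriminant, without any bound on the height, or ordered by the naive height.  In both
orderings, for every `r ≥ 0` a positive proportion of the curves has `rank + dim Ш(E)[2] = r` and root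
number `(-1) ^ r`; in particular a positive proportion has rank `0`.  If the ranks of these curves are
bounded, then for every `k` a positive proportion of the curves has `dim Ш(E)[2] ≥ k`.

Method: the curves with minimal discriminant at most `Z` are, up to a constant factor, as many as the
curves of naive height at most `Z / 32` (which are among them), and the theorem holds in the ordering by
the height (starting library, `Y667.PA`).
-/

namespace Pool.Agent.Results.MP_6073f3_nt.RankPlusShaDiscriminant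

open Finset Filter Topology

open Pool.Agent.TH841.SH.D (Sha)

/-- the curve `y² = x³ + A x + B` over `ℚ`, `c = (A, B)` -/
def E (c : ℤ × ℤ) : WeierstrassCurve ℚ := ⟨0, 0, 0, (c.1 : ℚ), (c.2 : ℚ)⟩

/-- the absolute value of the minimal discriminant of an elliptic curve `W` over `ℚ`: the smallest
absolute value of the discriminant of a Weierstrass equation `V` with integer coefficients which is
isomorphic to `W` over `ℚ` -/
noncomputable def minDisc (W : WeierstrassCurve ℚ) : ℕ :=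
  sInf {n : ℕ | ∃ (V : WeierstrassCurve ℤ) (C : WeierstrassCurve.VariableChange ℚ),
    C • W = V.map (Int.castRingHom ℚ) ∧ n = V.Δ.natAbs}

/-- the naive height of `y² = x³ + A x + B` is at most `Z` -/
def HeightLe (c : ℤ × ℤ) (Z : ℕ) : Prop := 4 * |c.1| ^ 3 ≤ Z ∧ 27 * c.2 ^ 2 ≤ Z

/-- the minimal discriminant of `y² = x³ + A x + B` is at most `Z` in absolute value -/
def DiscLe (c : ℤ × ℤ) (Z : ℕ) : Prop := minDisc (E c) ≤ Z

/-- The pairs `(A, B)` of integers such that `4 A³ + 27 B² ≠ 0`, there is no prime `p` with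
`p⁴ ∣ A` and `p⁶ ∣ B`, `Z/2 x Z/2` embeds in the group of the rational points of
`y² = x³ + A x + B`, and the size is at most `Z`. Every elliptic curve over `ℚ` with full rational
2-torsion is isomorphic to `E c` for exactly one pair `c` with the first three properties. -/
def Fam (I : ℤ × ℤ → ℕ → Prop) (Z : ℕ) : Set (ℤ × ℤ) :=
  {c : ℤ × ℤ | 4 * c.1 ^ 3 + 27 * c.2 ^ 2 ≠ 0 ∧
    (∀ p : ℕ, p.Prime → ¬ ((p : ℤ) ^ 4 ∣ c.1 ∧ (p : ℤ) ^ 6 ∣ c.2)) ∧
    (∃ f : ZMod 2 × ZMod 2 →+ (E c).toAffine.Point, Function.Injective f) ∧ I c Z}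

/-- the proportion of the curves of `S` among the curves of size at most `Z` -/
noncomputable def proportion (I : ℤ × ℤ → ℕ → Prop) (S : Set (ℤ × ℤ)) (Z : ℕ) : ℝ :=
  ((Fam I Z ∩ S).ncard : ℝ) / (Fam I Z).ncard

/-- the Mordell-Weil rank -/
noncomputable def rank (c : ℤ × ℤ) : ℕ := Module.finrank ℤ (E c).toAffine.Point

/-- `a_p = p + 1 - #V(𝔽_p)`, that is `p` minus the number of the affine solutions of the Weierstrass
equation modulo `p`; for a prime of multiplicative reduction this is `1` (split) or `-1`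
(non-split) -/
noncomputable def ap (V : WeierstrassCurve ℤ) (p : ℕ) : ℤ :=
  p - Nat.card {z : ZMod p × ZMod p // z.2 ^ 2 + V.a₁ * z.1 * z.2 + V.a₃ * z.2 =
    z.1 ^ 3 + V.a₂ * z.1 ^ 2 + V.a₄ * z.1 + V.a₆}

/-- the equation with integer coefficients is nonsingular over `ℚ` and at every prime the reduction
is good or multiplicative (then it is a minimal equation) -/
def Semistable (V : WeierstrassCurve ℤ) : Prop :=
  V.Δ ≠ 0 ∧ ∀ p : ℕ, p.Prime → (p : ℤ) ∣ V.Δ → ¬ (p : ℤ) ∣ V.c₄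

/-- the conductor of a semistable curve -/
def conductor (V : WeierstrassCurve ℤ) : ℕ := ∏ p ∈ V.Δ.natAbs.primeFactors, p

/-- The root number of a semistable curve: the product of the local root numbers `-1` at infinity
and `-a_p` at the primes of bad (multiplicative) reduction. -/
noncomputable def wSemi (V : WeierstrassCurve ℤ) : ℤ :=
  -∏ p ∈ V.Δ.natAbs.primeFactors, (-ap V p)

/-- the quadratic twist by `d` of the curve `V` (the curve `y² = x³ + b₂ x² + 8 b₄ x + 16 b₆`) -/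
def twist (V : WeierstrassCurve ℤ) (d : ℕ) : WeierstrassCurve ℚ :=
  ⟨0, (d : ℚ) * V.b₂, 0, 8 * (d : ℚ) ^ 2 * V.b₄, 16 * (d : ℚ) ^ 3 * V.b₆⟩

/-- `w` is the root number of `W`, for the quadratic twists `W` of a semistable curve `V` of conductor
`N` by a positive fundamental discriminant `d ≡ 1` modulo `4` prime to `N` (`d = 1` allowed): it is
`χ_d(-N) w_V`, where `χ_d(-N) = χ_d(N)` is the Jacobi symbol `(N / d)` -/
def HasRootNumber (W : WeierstrassCurve ℚ) (w : ℤ) : Prop :=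
  ∃ (V : WeierstrassCurve ℤ) (d : ℕ), Semistable V ∧ Squarefree d ∧ d % 4 = 1 ∧
    d.Coprime V.Δ.natAbs ∧ (∃ C : WeierstrassCurve.VariableChange ℚ, C • W = twist V d) ∧
    w = jacobiSym (conductor V) d * wSemi V

/-- the curves with `rank + dim Ш(E)[2] = r`, that is `2 ^ rank * |Ш(E)[2]| = 2 ^ r`, and root number
`(-1) ^ r` -/
def RankSha (r : ℕ) : Set (ℤ × ℤ) :=
  {c | 2 ^ rank c * Nat.card {x : Sha (E c) // x + x = 0} = 2 ^ r ∧
    HasRootNumber (E c) ((-1) ^ r)}

/-- the curves with `dim Ш(E)[2] ≥ k` -/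
def LargeSha (k : ℕ) : Set (ℤ × ℤ) :=
  {c | Finite {x : Sha (E c) // x + x = 0} ∧
    2 ^ k ≤ Nat.card {x : Sha (E c) // x + x = 0}}

lemma rankSha_of {r : ℕ} {c : ℤ × ℤ} (hD : 4 * c.1 ^ 3 + 27 * c.2 ^ 2 ≠ 0)
    (hT : ∃ f : ZMod 2 × ZMod 2 →+ (E c).toAffine.Point, Function.Injective f)
    (h : Pool.Agent.Y667.PA.TPR r c) : c ∈ RankSha r := by
  have hT' : Pool.Agent.W307.RT.HasT 2 (Pool.Agent.W307.RT.Sh c.1 c.2) :=
    Pool.Agent.W307.RT.tors_iff.2 hT
  obtain ⟨-, ⟨-, h2⟩, -⟩ := Pool.Agent.Y667.SX.sx_of hD hT' h.1 h.2.1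
  exact ⟨h2, h.2.2.1⟩

lemma large_of {I : ℤ × ℤ → ℕ → Prop} {Z B k : ℕ} (hfin : (Fam I Z).Finite)
    (hB : ∀ c ∈ Fam I Z, rank c ≤ B) :
    proportion I (RankSha (B + k)) Z ≤ proportion I (LargeSha k) Z := by
  unfold proportion
  refine div_le_div_of_nonneg_right (Nat.cast_le.2 (Set.ncard_le_ncard ?_
    (hfin.subset Set.inter_subset_left))) (Nat.cast_nonneg _)
  rintro c ⟨hc, h1, -⟩
  refine ⟨hc, ?_, ?_⟩
  · apply Nat.finite_of_card_ne_zero
    intro h0
    rw [h0, mul_zero] at h1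
    exact (pow_ne_zero (B + k) (by norm_num : (2 : ℕ) ≠ 0)) h1.symm
  · have h2 : (2 : ℕ) ^ rank c ≤ 2 ^ B := Nat.pow_le_pow_right (by norm_num) (hB c hc)
    have h3 : 2 ^ B * 2 ^ k ≤ 2 ^ B * Nat.card {x : Sha (E c) // x + x = 0} := by
      rw [← pow_add, ← h1]
      exact Nat.mul_le_mul_right _ h2
    exact Nat.le_of_mul_le_mul_left h3 (by positivity)

lemma FamH_eq (H : ℕ) : Fam HeightLe H = (Pool.Agent.W307.RT.Cv 2 H : Set (ℤ × ℤ)) := by
  classical
  ext c
  have h : Pool.Agent.W307.RT.HasT 2 (Pool.Agent.W307.RT.Sh c.1 c.2) ↔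
    ∃ f : ZMod 2 × ZMod 2 →+ (E c).toAffine.Point, Function.Injective f :=
    Pool.Agent.W307.RT.tors_iff
  unfold Fam HeightLe Pool.Agent.W307.RT.Cv
  rw [Set.mem_ofPred_eq, mem_coe, mem_filter, h, mem_product, mem_Icc, mem_Icc]
  constructor
  · rintro ⟨h1, h2, h3, h4, h5⟩
    refine ⟨⟨?_, ?_⟩, h1, h4, h5, h2, h3⟩
    · rw [← abs_le]
      have h0 := abs_nonneg c.1
      rcases eq_or_lt_of_le h0 with h6 | h6
      · rw [← h6]; positivity
      · have : 1 ≤ |c.1| := h6
        nlinarith [mul_nonneg h0 h0, mul_self_nonneg (|c.1| - 1)]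
    · rw [← abs_le]
      have h0 := abs_nonneg c.2
      rw [← sq_abs] at h5
      rcases eq_or_lt_of_le h0 with h6 | h6
      · rw [← h6]; positivity
      · have : 1 ≤ |c.2| := h6
        nlinarith
  · rintro ⟨-, h1, h4, h5, h2, h3⟩
    exact ⟨h1, h2, h3, h4, h5⟩

lemma FamD_eq' (Z : ℕ) : Fam DiscLe Z = Pool.Agent.W307.RS.DvS 2 Z := by
  ext c
  have h : Pool.Agent.W307.RT.HasT 2 (Pool.Agent.W307.RT.Sh c.1 c.2) ↔
      ∃ f : ZMod 2 × ZMod 2 →+ (E c).toAffine.Point, Function.Injective f :=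
    Pool.Agent.W307.RT.tors_iff
  unfold Fam Pool.Agent.W307.RS.DvS
  rw [Set.mem_ofPred_eq, Set.mem_ofPred_eq, h]
  exact Iff.rfl

lemma tendstoH : Tendsto (fun Z : ℕ => (Fam HeightLe Z).ncard) atTop atTop := by
  simp only [FamH_eq, Set.ncard_coe_finset]
  exact Pool.Agent.W307.RT.tendsto_of_low Pool.Agent.W672.FK.lowf

lemma tendstoD : Tendsto (fun Z : ℕ => (Fam DiscLe Z).ncard) atTop atTop := by
  have h1 := Pool.Agent.W307.RT.tendsto_of_low Pool.Agent.W672.FK.lowf
  have h2 : Tendsto (fun D : ℕ => (Pool.Agent.W307.RT.Cv 2 (D / 32)).card) atTop atTop :=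
    h1.comp (Nat.tendsto_div_const_atTop (by norm_num))
  refine tendsto_atTop_mono (fun D => ?_) h2
  rw [FamD_eq', ← Set.ncard_coe_finset]
  exact Set.ncard_le_ncard (Pool.Agent.W307.RS.Cv_sub Pool.Agent.W554.RS.mdl 2 (D / 32) D
    (Nat.mul_div_le D 32)) (Pool.Agent.Q100.DO.dvs_fin D)

/-- **Theorem.** Order the elliptic curves over `ℚ` with full rational 2-torsion by the absolute value
of the minimal discriminant, with no bound on the height, or by the naive height. There are finitely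
many curves of size at most `Z` and their number tends to infinity with `Z`. For every `r ≥ 0` a
positive proportion of them has `rank + dim Ш(E)[2] = r` and root number `(-1) ^ r` (for `r = 0`: rank
`0`). If `rank ≤ B` for all these curves, then for every `k` a positive proportion of them has
`dim Ш(E)[2] ≥ k`. -/
theorem result : ∀ I : ℤ × ℤ → ℕ → Prop, (I = DiscLe ∨ I = HeightLe) →
    ((∀ Z : ℕ, (Fam I Z).Finite) ∧ Tendsto (fun Z : ℕ => (Fam I Z).ncard) atTop atTop) ∧
    (∀ r : ℕ, ∃ δ : ℝ, 0 < δ ∧ ∀ᶠ Z : ℕ in atTop, δ ≤ proportion I (RankSha r) Z) ∧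
    ∀ B : ℕ, (∀ Z : ℕ, ∀ c ∈ Fam I Z, rank c ≤ B) →
      ∀ k : ℕ, ∃ δ : ℝ, 0 < δ ∧ ∀ᶠ Z : ℕ in atTop, δ ≤ proportion I (LargeSha k) Z := by
  classical
  intro I hI
  have hfin : ∀ Z : ℕ, (Fam I Z).Finite := by
    intro Z
    rcases hI with rfl | rfl
    · rw [FamD_eq']
      exact Pool.Agent.Q100.DO.dvs_fin Z
    · rw [FamH_eq]
      exact finite_toSet _
  have htend : Tendsto (fun Z : ℕ => (Fam I Z).ncard) atTop atTop := by
    rcases hI with rfl | rfl
    · exact tendstoD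
    · exact tendstoH
  have hpos : ∀ r : ℕ, ∃ δ : ℝ, 0 < δ ∧ ∃ Z0 : ℕ, ∀ Z : ℕ, Z0 ≤ Z →
      δ * ((Fam I Z).ncard : ℝ) ≤ ((Fam I Z ∩ {c | Pool.Agent.Y667.PA.TPR r c}).ncard : ℝ) := by
    intro r
    rcases hI with rfl | rfl
    · simp only [FamD_eq']
      exact Pool.Agent.Q100.DO.pos_of_height (Pool.Agent.Y667.PA.curvesPR r)
    · obtain ⟨c, hc, H0, h⟩ := Pool.Agent.Y667.PA.curvesPR r
      refine ⟨c, hc, H0, fun Z hZ => ?_⟩
      rw [FamH_eq, Set.ncard_coe_finset]
      refine (h Z hZ).trans (le_of_eq ?_)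
      rw [← Set.ncard_coe_finset]
      congr 2
      ext x
      simp
  have h3 : ∀ r : ℕ, ∃ δ : ℝ, 0 < δ ∧ ∀ᶠ Z : ℕ in atTop, δ ≤ proportion I (RankSha r) Z := by
    intro r
    obtain ⟨δ, hδ, Z0, h⟩ := hpos r
    refine ⟨δ, hδ, ?_⟩
    filter_upwards [eventually_ge_atTop Z0, htend.eventually_gt_atTop 0] with Z hZ hZ1
    unfold proportion
    rw [le_div_iff₀ (by exact_mod_cast hZ1)]
    refine (h Z hZ).trans (Nat.cast_le.2 (Set.ncard_le_ncard ?_
      ((hfin Z).subset Set.inter_subset_left)))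
    rintro c ⟨h1, h2⟩
    exact ⟨h1, rankSha_of h1.1 h1.2.2.1 h2⟩
  refine ⟨⟨hfin, htend⟩, h3, fun B hB k => ?_⟩
  obtain ⟨δ, hδ, h⟩ := h3 (B + k)
  refine ⟨δ, hδ, ?_⟩
  filter_upwards [h] with Z hZ
  exact hZ.trans (large_of (hfin Z) (hB Z))

end Pool.Agent.Results.MP_6073f3_nt.RankPlusShaDiscriminant
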