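import Pool.Agent.Q235.FE.Ht2

/-!
# The products `∏_{p ≤ x} N_p / p` over all the elliptic curves, ordered by height

The moments of `P_x(E) = ∏_{p ≤ x} N_p / p` over all the elliptic curves of naive height at most `X`, and the
proportions of the curves for which this product is as large or as small as a power of `log x`.
-/

set_option autoImplicit false

namespace Pool.Agent.Results.MP_6073f3_nt.TruncatedRankMoments

open Finset
open Pool.Agent.W263.BSD (pointCount GoodPrime)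
open Pool.Agent.Q235.FE

open Classical in
/-- the elliptic curves `y² = x³ + A x + B` of height at most `X` in minimal form -/
noncomputable def curves (X : ℕ) : Finset (ℤ × ℤ) :=
  (Icc (-(X : ℤ)) X ×ˢ Icc (-(X : ℤ)) X).filter fun q =>
    (4 * q.1 ^ 3 + 27 * q.2 ^ 2 ≠ 0 ∧ ∀ p : ℕ, p.Prime → ¬ ((p : ℤ) ^ 4 ∣ q.1 ∧ (p : ℤ) ^ 6 ∣ q.2)) ∧
      4 * |q.1| ^ 3 ≤ X ∧ 27 * q.2 ^ 2 ≤ X

open Classical in
/-- the product of `N_p / p` over the good primes `p ≤ x` -/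
noncomputable def bsd (q : ℤ × ℤ) (x : ℕ) : ℝ :=
  ∏ p ∈ (range (x + 1)).filter (GoodPrime q.1 q.2), (((pointCount q.1 q.2 p : ℝ) + 1) / p)

open Classical in
/-- the proportion of the elements with a property -/
noncomputable def share (F : Finset (ℤ × ℤ)) (P : ℤ × ℤ → Prop) : ℝ := ((F.filter P).card : ℝ) / F.card

lemma curves_eq (X : ℕ) : curves X = Pool.Agent.Q28.BP.FF X := by
  classical
  unfold curves Pool.Agent.Q28.BP.FF Pool.Agent.Q28.BP.box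
  ext q
  simp only [mem_filter]
  tauto

lemma mem_curves (X : ℕ) (q : ℤ × ℤ) : q ∈ curves X ↔
    (4 * q.1 ^ 3 + 27 * q.2 ^ 2 ≠ 0 ∧ ∀ p : ℕ, p.Prime → ¬ ((p : ℤ) ^ 4 ∣ q.1 ∧ (p : ℤ) ^ 6 ∣ q.2)) ∧
      4 * |q.1| ^ 3 ≤ X ∧ 27 * q.2 ^ 2 ≤ X := by
  classical
  unfold curves
  rw [mem_filter]
  refine ⟨fun h => h.2, fun h => ⟨?_, h⟩⟩
  obtain ⟨-, h1, h2⟩ := h
  rw [mem_product, mem_Icc, mem_Icc, ← abs_le, ← abs_le]
  have key : ∀ (a : ℤ) (n : ℕ), n ≠ 0 → |a| ≤ |a| ^ n := by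
    intro a n hn
    rcases (abs_nonneg a).eq_or_lt with h | h
    · rw [← h, zero_pow hn]
    · exact le_self_pow₀ h hn
  have h3 := key q.1 3 (by norm_num)
  have h4 := key q.2 2 (by norm_num)
  rw [sq_abs] at h4
  have h5 := abs_nonneg q.1
  have h6 := abs_nonneg q.2
  constructor <;> linarith

lemma bsd_pos (q : ℤ × ℤ) (x : ℕ) : 0 < bsd q x := by
  classical
  unfold bsd
  exact (Pool.Agent.Q28.BP.log_prod q.1 q.2 x).1

lemma log_bsd (q : ℤ × ℤ) (x : ℕ) : Real.log (bsd q x) = ZZ x q := by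
  classical
  unfold bsd ZZ upTo
  exact (Pool.Agent.Q28.BP.log_prod q.1 q.2 x).2

lemma bsd_rpow (q : ℤ × ℤ) (x : ℕ) (κ : ℝ) : bsd q x ^ κ = Real.exp (κ * ZZ x q) := by
  rw [Real.rpow_def_of_pos (bsd_pos q x), log_bsd, mul_comm]

/-- finitely many exponents -/
lemma finite_exps (T : Finset ℝ) : ∃ (D : ℝ) (x₀ : ℕ), 0 ≤ D ∧ 16 ≤ x₀ ∧ ∀ κ ∈ T, ∀ x X : ℕ, x₀ ≤ x →
    10 * (x : ℝ) ≤ Real.log X →
    |Real.log (expAvg (Pool.Agent.Q28.BP.FF X) (ZZ x) κ) - κ * (κ + 1) / 2 * Real.log (Real.log x)| ≤ D := by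
  classical
  induction T using Finset.induction_on with
  | empty => exact ⟨0, 16, le_rfl, le_rfl, fun κ hκ => absurd hκ (notMem_empty κ)⟩
  | insert κ₁ T _ ih =>
    obtain ⟨D₁, x₁, hD₁, hx₁, H₁⟩ := ih
    obtain ⟨D₂, x₂, hD₂, hx₂, H₂⟩ := FF_moments κ₁
    refine ⟨max D₁ D₂, max x₁ x₂, hD₁.trans (le_max_left _ _), hx₁.trans (le_max_left _ _), fun κ hκ x X hx hX => ?_⟩
    rcases mem_insert.1 hκ with rfl | hκ
    · exact (H₂ x X ((le_max_right _ _).trans hx) hX).2.trans (le_max_right _ _)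
    · exact (H₁ κ hκ x X ((le_max_left _ _).trans hx) hX).trans (le_max_left _ _)

/-- large deviations on one side -/
lemma side (s : ℝ) (hs : s = 1 ∨ s = -1) (ρ ε : ℝ) (hρ : s * (1 / 2) ≤ s * ρ) (hε : 0 < ε) : ∃ x₀ : ℕ, 16 ≤ x₀ ∧
    ∀ x X : ℕ, x₀ ≤ x → 10 * (x : ℝ) ≤ Real.log X →
    Real.log x ^ (-((ρ - 1 / 2) ^ 2 / 2) - ε) ≤ proportion (Pool.Agent.Q28.BP.FF X)
      (fun q => s * ρ * Real.log (Real.log x) ≤ s * ZZ x q) ∧
    proportion (Pool.Agent.Q28.BP.FF X) (fun q => s * ρ * Real.log (Real.log x) ≤ s * ZZ x q) ≤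
      Real.log x ^ (-((ρ - 1 / 2) ^ 2 / 2) + ε) := by
  classical
  have hs2 : s ^ 2 = 1 := by rcases hs with rfl | rfl <;> norm_num
  obtain ⟨T, ε₁, L₀, hε₁, hL₀, HL⟩ := ld (s * (1 / 2)) (s * ρ) ε hρ hε
  obtain ⟨D, x₀, hD, hx₀, HM⟩ := finite_exps (T.image fun κ => s * κ)
  obtain ⟨x₁, hx₁⟩ := Filter.eventually_atTop.1 ((Pool.Agent.Q28.BP.tendsto_loglog.eventually_ge_atTop L₀).and
    (Pool.Agent.Q28.BP.tendsto_loglog.eventually_ge_atTop (D / ε₁)))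
  obtain ⟨D₀, x₂, -, -, HN⟩ := FF_moments 0
  refine ⟨max (max x₀ x₁) x₂, hx₀.trans ((le_max_left _ _).trans (le_max_left _ _)), fun x X hx hX => ?_⟩
  have h0 : x₀ ≤ x := ((le_max_left _ _).trans (le_max_left _ _)).trans hx
  have h1 : x₁ ≤ x := ((le_max_right _ _).trans (le_max_left _ _)).trans hx
  have h2 : x₂ ≤ x := (le_max_right _ _).trans hx
  obtain ⟨k1, k2⟩ := hx₁ x h1
  rw [div_le_iff₀ hε₁] at k2
  have hx16 : 16 ≤ x := hx₀.trans h0
  have hlx : 0 < Real.log x := Real.log_pos (by exact_mod_cast (by omega : 1 < x))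
  have key := HL (Pool.Agent.Q28.BP.FF X) (fun q => s * ZZ x q) (Real.log (Real.log x)) (HN x X h2 hX).1 k1 (fun κ hκ => by
    have h3 := HM (s * κ) (mem_image_of_mem _ hκ) x X h0 hX
    have e1 : expAvg (Pool.Agent.Q28.BP.FF X) (fun q => s * ZZ x q) κ = expAvg (Pool.Agent.Q28.BP.FF X) (ZZ x) (s * κ) := by
      unfold expAvg
      congr 1
      exact sum_congr rfl fun q _ => by
        congr 1
        ring
    have e2 : s * κ * (s * κ + 1) / 2 = κ ^ 2 / 2 + s * (1 / 2) * κ := by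
      have : s * κ * (s * κ + 1) / 2 = s ^ 2 * (κ ^ 2) / 2 + s * (1 / 2) * κ := by ring
      rw [this, hs2, one_mul]
    rw [e1, ← e2]
    exact h3.trans (by linarith))
  have e3 : (s * ρ - s * (1 / 2)) ^ 2 = (ρ - 1 / 2) ^ 2 := by
    have : (s * ρ - s * (1 / 2)) ^ 2 = s ^ 2 * (ρ - 1 / 2) ^ 2 := by ring
    rw [this, hs2, one_mul]
  rw [e3] at key
  have e4 : ∀ y : ℝ, Real.log x ^ y = Real.exp (y * Real.log (Real.log x)) := by
    intro y
    rw [Real.rpow_def_of_pos hlx, mul_comm]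
  rw [e4, e4]
  exact key

/-- **The moments and the large values of the products over all the elliptic curves.** `curves X` is the set of the
elliptic curves over `ℚ` of naive height at most `X`. For every real `κ` the average of the `κ`-th power of
`∏_{p ≤ x} N_p / p` over these curves is between two constant multiples of `(log x)^{κ (κ + 1) / 2}`, and for
`ρ ≥ 1/2` the proportion of the curves for which this product is at least `(log x)^ρ` is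
`(log x)^{-(ρ - 1/2)² / 2 + o(1)}`; the same for `ρ ≤ 1/2` and the product at most `(log x)^ρ`. All this is uniform in
`x` and `X` with `10 x ≤ log X`. -/
theorem result :
    (∀ (X : ℕ) (q : ℤ × ℤ), q ∈ curves X ↔
      (4 * q.1 ^ 3 + 27 * q.2 ^ 2 ≠ 0 ∧ ∀ p : ℕ, p.Prime → ¬ ((p : ℤ) ^ 4 ∣ q.1 ∧ (p : ℤ) ^ 6 ∣ q.2)) ∧
        4 * |q.1| ^ 3 ≤ X ∧ 27 * q.2 ^ 2 ≤ X) ∧
    (∀ κ : ℝ, ∃ (C : ℝ) (x₀ : ℕ), 0 < C ∧ ∀ x X : ℕ, x₀ ≤ x → 10 * (x : ℝ) ≤ Real.log X →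
      C⁻¹ * Real.log x ^ (κ * (κ + 1) / 2) ≤ (∑ q ∈ curves X, bsd q x ^ κ) / (curves X).card ∧
      (∑ q ∈ curves X, bsd q x ^ κ) / (curves X).card ≤ C * Real.log x ^ (κ * (κ + 1) / 2)) ∧
    (∀ ρ ε : ℝ, 0 < ε → ∃ x₀ : ℕ, ∀ x X : ℕ, x₀ ≤ x → 10 * (x : ℝ) ≤ Real.log X →
      (1 / 2 ≤ ρ →
        Real.log x ^ (-((ρ - 1 / 2) ^ 2 / 2) - ε) ≤ share (curves X) (fun q => Real.log x ^ ρ ≤ bsd q x) ∧
        share (curves X) (fun q => Real.log x ^ ρ ≤ bsd q x) ≤ Real.log x ^ (-((ρ - 1 / 2) ^ 2 / 2) + ε)) ∧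
      (ρ ≤ 1 / 2 →
        Real.log x ^ (-((ρ - 1 / 2) ^ 2 / 2) - ε) ≤ share (curves X) (fun q => bsd q x ≤ Real.log x ^ ρ) ∧
        share (curves X) (fun q => bsd q x ≤ Real.log x ^ ρ) ≤ Real.log x ^ (-((ρ - 1 / 2) ^ 2 / 2) + ε))) := by
  classical
  refine ⟨mem_curves, fun κ => ?_, fun ρ ε hε => ?_⟩
  · obtain ⟨D, x₀, hD, hx₀, H⟩ := FF_moments κ
    refine ⟨Real.exp D, x₀, Real.exp_pos _, fun x X hx hX => ?_⟩
    obtain ⟨hne, h1⟩ := H x X hx hX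
    have hx16 : 16 ≤ x := hx₀.trans hx
    have hlx : 0 < Real.log x := Real.log_pos (by exact_mod_cast (by omega : 1 < x))
    have e1 : (∑ q ∈ curves X, bsd q x ^ κ) / (curves X).card = expAvg (Pool.Agent.Q28.BP.FF X) (ZZ x) κ := by
      unfold expAvg
      rw [curves_eq]
      congr 1
      exact sum_congr rfl fun q _ => bsd_rpow q x κ
    have hpos : 0 < expAvg (Pool.Agent.Q28.BP.FF X) (ZZ x) κ := by
      unfold expAvg
      exact div_pos (sum_pos (fun _ _ => Real.exp_pos _) hne) (by exact_mod_cast hne.card_pos)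
    rw [e1, Real.rpow_def_of_pos hlx, ← Real.exp_neg, ← Real.exp_add, ← Real.exp_add]
    rw [abs_le] at h1
    constructor
    · rw [← Real.le_log_iff_exp_le hpos]
      linarith [h1.1]
    · rw [← Real.log_le_iff_le_exp hpos]
      linarith [h1.2]
  · have hconv : ∀ (x : ℕ) (q : ℤ × ℤ), 16 ≤ x → ((Real.log x ^ ρ ≤ bsd q x ↔ 1 * ρ * Real.log (Real.log x) ≤ 1 * ZZ x q) ∧
        (bsd q x ≤ Real.log x ^ ρ ↔ -1 * ρ * Real.log (Real.log x) ≤ -1 * ZZ x q)) := by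
      intro x q hx16
      have hlx : 0 < Real.log x := Real.log_pos (by exact_mod_cast (by omega : 1 < x))
      rw [Real.rpow_def_of_pos hlx, ← Real.le_log_iff_exp_le (bsd_pos q x), ← Real.log_le_iff_le_exp (bsd_pos q x), log_bsd]
      constructor
      · constructor <;> intro h <;> linarith
      · constructor <;> intro h <;> linarith
    have hshare : ∀ (X : ℕ) (P Q : ℤ × ℤ → Prop), (∀ q, P q ↔ Q q) → share (curves X) P = proportion (Pool.Agent.Q28.BP.FF X) Q := by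
      intro X P Q h
      have : P = Q := funext fun q => propext (h q)
      unfold share proportion
      rw [this, curves_eq]
    obtain ⟨x₁, hx₁, H₁⟩ : ∃ x₁ : ℕ, 16 ≤ x₁ ∧ ∀ x X : ℕ, x₁ ≤ x → 10 * (x : ℝ) ≤ Real.log X → 1 / 2 ≤ ρ →
        Real.log x ^ (-((ρ - 1 / 2) ^ 2 / 2) - ε) ≤ share (curves X) (fun q => Real.log x ^ ρ ≤ bsd q x) ∧
        share (curves X) (fun q => Real.log x ^ ρ ≤ bsd q x) ≤ Real.log x ^ (-((ρ - 1 / 2) ^ 2 / 2) + ε) := by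
      by_cases hρ : 1 / 2 ≤ ρ
      · obtain ⟨x₁, hx₁, H⟩ := side 1 (Or.inl rfl) ρ ε (by linarith) hε
        refine ⟨x₁, hx₁, fun x X hx hX _ => ?_⟩
        rw [hshare X _ _ (fun q => (hconv x q (hx₁.trans hx)).1)]
        exact H x X hx hX
      · exact ⟨16, le_rfl, fun x X _ _ h => absurd h hρ⟩
    obtain ⟨x₂, hx₂, H₂⟩ : ∃ x₂ : ℕ, 16 ≤ x₂ ∧ ∀ x X : ℕ, x₂ ≤ x → 10 * (x : ℝ) ≤ Real.log X → ρ ≤ 1 / 2 →
        Real.log x ^ (-((ρ - 1 / 2) ^ 2 / 2) - ε) ≤ share (curves X) (fun q => bsd q x ≤ Real.log x ^ ρ) ∧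
        share (curves X) (fun q => bsd q x ≤ Real.log x ^ ρ) ≤ Real.log x ^ (-((ρ - 1 / 2) ^ 2 / 2) + ε) := by
      by_cases hρ : ρ ≤ 1 / 2
      · obtain ⟨x₁, hx₁, H⟩ := side (-1) (Or.inr rfl) ρ ε (by linarith) hε
        refine ⟨x₁, hx₁, fun x X hx hX _ => ?_⟩
        rw [hshare X _ _ (fun q => (hconv x q (hx₁.trans hx)).2)]
        exact H x X hx hX
      · exact ⟨16, le_rfl, fun x X _ _ h => absurd h hρ⟩
    exact ⟨max x₁ x₂, fun x X hx hX => ⟨H₁ x X ((le_max_left _ _).trans hx) hX, H₂ x X ((le_max_right _ _).trans hx) hX⟩⟩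

end Pool.Agent.Results.MP_6073f3_nt.TruncatedRankMoments
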